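import Mathlib

/-!
# Integer functions on the plane whose class sums modulo `p - 1` are divisible by `p`

`c` is an integer function with finite support on the plane, of `ℓ¹`-norm at most `n` and with
support in a box of side `n`. We show that it is zero if, for many primes `p`, all sums of `c` over
the classes modulo `p - 1` are divisible by `p` (theorem `core`).
-/

set_option autoImplicit false

namespace Pool.Agent.MetaRF

open Finset

/-- Congruence modulo `p - 1` of points of the plane. -/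
def Cong (p : ℕ) (v v₀ : Fin 2 → ℤ) : Prop := ∀ j, ((p : ℤ) - 1) ∣ v j - v₀ j

theorem Cong.refl (p : ℕ) (v : Fin 2 → ℤ) : Cong p v v := fun j => by simp

theorem Cong.symm {p : ℕ} {v v' : Fin 2 → ℤ} (h : Cong p v v') : Cong p v' v := fun j => by
  have := h j
  rw [← neg_sub (v j) (v' j), dvd_neg]
  exact this

theorem Cong.trans {p : ℕ} {v v' v'' : Fin 2 → ℤ} (h : Cong p v v') (h' : Cong p v' v'') :
    Cong p v v'' := fun j => by
  have := dvd_add (h j) (h' j)
  rwa [sub_add_sub_cancel] at this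

open Classical in
/-- The sum of `c` over the class of `v₀` modulo `p - 1`. -/
noncomputable def S (c : (Fin 2 → ℤ) →₀ ℤ) (p : ℕ) (v₀ : Fin 2 → ℤ) : ℤ :=
  ∑ v ∈ c.support with Cong p v v₀, c v

variable {P : Finset ℕ} {Y τ T M n : ℕ} {c : (Fin 2 → ℤ) →₀ ℤ} {b : Fin 2 → ℤ}

/-- Two different points of the box are congruent modulo `p - 1` for at most `τ` of the `p`. -/
theorem card_cong (hP : ∀ p ∈ P, p.Prime)
    (hτ : ∀ m, 0 < m → m ≤ n → m.divisors.card ≤ τ)
    {v v' : Fin 2 → ℤ} (hne : v ≠ v') (hb : ∀ j, |v j - v' j| ≤ n)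
    [DecidablePred fun p => Cong p v v'] :
    #{p ∈ P | Cong p v v'} ≤ τ := by
  obtain ⟨j, hj⟩ : ∃ j, v j ≠ v' j := by
    by_contra hcon
    push Not at hcon
    exact hne (funext hcon)
  have h0 : 0 < (v j - v' j).natAbs := Int.natAbs_pos.2 (sub_ne_zero.2 hj)
  have h1 : (v j - v' j).natAbs ≤ n := by
    have := hb j
    rw [Int.abs_eq_natAbs] at this
    exact_mod_cast this
  refine le_trans ?_ (hτ _ h0 h1)
  refine card_le_card_of_injOn (fun p => p - 1) ?_ ?_
  · intro p hp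
    rw [mem_coe, mem_filter] at hp
    rw [mem_coe, Nat.mem_divisors]
    refine ⟨?_, h0.ne'⟩
    have h2 := hp.2 j
    have h3 : ((p : ℤ) - 1) = ((p - 1 : ℕ) : ℤ) := by
      have := (hP p hp.1).pos
      push_cast [Nat.cast_sub this]
      ring
    rw [h3] at h2
    exact Int.natCast_dvd.1 h2
  · intro p hp q hq h
    rw [mem_coe, mem_filter] at hp hq
    have h2 := (hP p hp.1).pos
    have h3 := (hP q hq.1).pos
    simp only at h
    omega

open Classical in
/-- The values of `c` are at most `T`. -/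
theorem coeff_le (hP : ∀ p ∈ P, p.Prime ∧ Y < p)
    (hτ : ∀ m, 0 < m → m ≤ n → m.divisors.card ≤ τ)
    (hc1 : ∑ v ∈ c.support, |c v| ≤ n)
    (hbox : ∀ v ∈ c.support, ∀ v' ∈ c.support, ∀ j, |v j - v' j| ≤ n)
    (hS : ∀ p ∈ P, ∀ v₀, (p : ℤ) ∣ S c p v₀)
    (h1 : n * τ + (2 * T + 1) * T < P.card * T) (h2 : n + T < Y ^ 2)
    (v₀ : Fin 2 → ℤ) (hv₀ : v₀ ∈ c.support) : |c v₀| ≤ T := by
  by_contra hcon
  push Not at hcon
  set O : ℕ → ℤ := fun p => ∑ v ∈ c.support with (Cong p v v₀ ∧ v ≠ v₀), c v with hO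
  set A : ℕ → ℤ := fun p => ∑ v ∈ c.support with (Cong p v v₀ ∧ v ≠ v₀), |c v| with hA
  have hOA : ∀ p, |O p| ≤ A p := fun p => abs_sum_le_sum_abs _ _
  have hSO : ∀ p, S c p v₀ = c v₀ + O p := by
    intro p
    rw [S, hO]
    have : (c.support.filter fun v => Cong p v v₀) =
        insert v₀ (c.support.filter fun v => Cong p v v₀ ∧ v ≠ v₀) := by
      ext v
      simp only [mem_filter, mem_insert]
      constructor
      · rintro ⟨ha, hb⟩
        by_cases h : v = v₀
        · exact Or.inl h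
        · exact Or.inr ⟨ha, hb, h⟩
      · rintro (rfl | ⟨ha, hb, _⟩)
        · exact ⟨hv₀, Cong.refl _ _⟩
        · exact ⟨ha, hb⟩
    rw [this, sum_insert (by simp)]
  -- the sum of the `A p`
  have hsum : ∑ p ∈ P, A p ≤ (n * τ : ℕ) := by
    have e1 : ∑ p ∈ P, A p =
        ∑ v ∈ c.support with v ≠ v₀, |c v| * (#{p ∈ P | Cong p v v₀} : ℤ) := by
      rw [hA]
      simp only [sum_filter]
      rw [sum_comm]
      refine sum_congr rfl fun v _ => ?_
      split_ifs with h
      · rw [card_filter, Nat.cast_sum, mul_sum]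
        refine sum_congr rfl fun p _ => ?_
        by_cases h' : Cong p v v₀ <;> simp [h, h']
      · exact sum_eq_zero fun p _ => by simp [h]
    rw [e1]
    calc ∑ v ∈ c.support with v ≠ v₀, |c v| * (#{p ∈ P | Cong p v v₀} : ℤ)
        ≤ ∑ v ∈ c.support with v ≠ v₀, |c v| * (τ : ℤ) := by
          refine sum_le_sum fun v hv => ?_
          rw [mem_filter] at hv
          refine mul_le_mul_of_nonneg_left ?_ (abs_nonneg _)
          exact_mod_cast card_cong (fun p hp => (hP p hp).1) hτ hv.2 (hbox v hv.1 v₀ hv₀)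
      _ ≤ ∑ v ∈ c.support, |c v| * (τ : ℤ) :=
          sum_le_sum_of_subset_of_nonneg (filter_subset _ _) fun v _ _ => by positivity
      _ = (∑ v ∈ c.support, |c v|) * τ := by rw [sum_mul]
      _ ≤ (n : ℤ) * τ := mul_le_mul_of_nonneg_right hc1 (by positivity)
      _ = (n * τ : ℕ) := by push_cast; rfl
  have hA0 : ∀ p, 0 ≤ A p := fun p => sum_nonneg fun v _ => abs_nonneg _
  -- the two parts
  have hP1 : #{p ∈ P | (T : ℤ) < A p} * T ≤ n * τ := by
    have e1 : (#{p ∈ P | (T : ℤ) < A p} : ℤ) * T ≤ ∑ p ∈ P, A p := by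
      calc (#{p ∈ P | (T : ℤ) < A p} : ℤ) * T = ∑ p ∈ P with (T : ℤ) < A p, (T : ℤ) := by
            rw [sum_const, nsmul_eq_mul]
        _ ≤ ∑ p ∈ P with (T : ℤ) < A p, A p := by
            refine sum_le_sum fun p hp => ?_
            rw [mem_filter] at hp
            exact hp.2.le
        _ ≤ ∑ p ∈ P, A p :=
            sum_le_sum_of_subset_of_nonneg (filter_subset _ _) fun p _ _ => hA0 p
    exact_mod_cast e1.trans hsum
  have hP2 : #{p ∈ P | ¬ (T : ℤ) < A p} ≤ 2 * T + 1 := by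
    have e1 : #(Finset.Icc (-(T : ℤ)) T) = 2 * T + 1 := by
      rw [Int.card_Icc]
      omega
    rw [← e1]
    refine card_le_card_of_injOn O ?_ ?_
    · intro p hp
      rw [mem_coe, mem_filter] at hp
      rw [mem_coe, mem_Icc, ← abs_le]
      exact (hOA p).trans (not_lt.1 hp.2)
    · intro p hp q hq hpq
      rw [mem_coe, mem_filter] at hp hq
      by_contra hne
      have f1 := hS p hp.1 v₀
      have f2 := hS q hq.1 v₀
      rw [hSO] at f1 f2
      rw [← hpq] at f2
      have f3 : c v₀ + O p ≠ 0 := by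
        intro h
        have h' : c v₀ = -O p := by linarith
        rw [h', abs_neg] at hcon
        exact absurd (lt_of_lt_of_le hcon (hOA p)) (by
          have := not_lt.1 hp.2
          exact not_lt.2 this)
      have f4 : IsCoprime (p : ℤ) (q : ℤ) :=
        Nat.isCoprime_iff_coprime.2 ((Nat.coprime_primes (hP p hp.1).1 (hP q hq.1).1).2 hne)
      have f5 := f4.mul_dvd f1 f2
      have f6 := Int.le_of_dvd (abs_pos.2 f3) ((dvd_abs _ _).2 f5)
      have f7 : |c v₀ + O p| ≤ n + T := by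
        refine (abs_add_le _ _).trans (add_le_add ?_ ((hOA p).trans (not_lt.1 hp.2)))
        exact (single_le_sum (f := fun v => |c v|) (fun v _ => abs_nonneg _) hv₀).trans hc1
      have f8 := (hP p hp.1).2
      have f9 := (hP q hq.1).2
      have f10 : Y ^ 2 < p * q := by
        rw [sq]
        exact Nat.mul_lt_mul'' f8 f9
      have f11 : (p * q : ℤ) ≤ n + T := f6.trans f7
      have f12 : p * q ≤ n + T := by exact_mod_cast f11
      omega
  have hcard := card_filter_add_card_filter_not (s := P) (fun p => (T : ℤ) < A p)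
  have : P.card * T ≤ n * τ + (2 * T + 1) * T := by
    rw [← hcard, add_mul]
    exact add_le_add hP1 (Nat.mul_le_mul_right _ hP2)
  omega

open Classical in
/-- For half of the primes all class sums are zero. -/
theorem good_card (hP : ∀ p ∈ P, p.Prime ∧ Y < p)
    (hτ : ∀ m, 0 < m → m ≤ n → m.divisors.card ≤ τ)
    (hc1 : ∑ v ∈ c.support, |c v| ≤ n)
    (hbox : ∀ v ∈ c.support, ∀ v' ∈ c.support, ∀ j, |v j - v' j| ≤ n)
    (hS : ∀ p ∈ P, ∀ v₀, (p : ℤ) ∣ S c p v₀)
    (h1 : n * τ + (2 * T + 1) * T < P.card * T) (h2 : n + T < Y ^ 2) (h2' : 2 * T ≤ Y)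
    (h3 : 4 * τ * n ^ 2 ≤ P.card * Y ^ 2) :
    P.card ≤ 2 * #{p ∈ P | ∀ v₀, S c p v₀ = 0} := by
  have hT := coeff_le hP hτ hc1 hbox hS h1 h2
  have hY : 0 < Y := by
    rcases Nat.eq_zero_or_pos Y with h | h
    · subst h
      simp at h2
    · exact h
  set E : ℕ → ℤ := fun p =>
    ∑ v ∈ c.support, ∑ v' ∈ c.support with (v' ≠ v ∧ Cong p v v'), |c v| * |c v'| with hE
  have hE0 : ∀ p, 0 ≤ E p := fun p => sum_nonneg fun v _ => sum_nonneg fun v' _ => by positivity
  have hsum : ∑ p ∈ P, E p ≤ (τ * n ^ 2 : ℕ) := by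
    have e1 : ∑ p ∈ P, E p =
        ∑ v ∈ c.support, ∑ v' ∈ c.support with v' ≠ v,
          |c v| * |c v'| * (#{p ∈ P | Cong p v v'} : ℤ) := by
      rw [hE]
      simp only
      rw [sum_comm]
      refine sum_congr rfl fun v _ => ?_
      simp only [sum_filter]
      rw [sum_comm]
      refine sum_congr rfl fun v' _ => ?_
      split_ifs with h
      · rw [card_filter, Nat.cast_sum, mul_sum]
        refine sum_congr rfl fun p _ => ?_
        by_cases h' : Cong p v v' <;> simp [h, h']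
      · exact sum_eq_zero fun p _ => by simp [h]
    rw [e1]
    calc ∑ v ∈ c.support, ∑ v' ∈ c.support with v' ≠ v,
          |c v| * |c v'| * (#{p ∈ P | Cong p v v'} : ℤ)
        ≤ ∑ v ∈ c.support, ∑ v' ∈ c.support with v' ≠ v, |c v| * |c v'| * (τ : ℤ) := by
          refine sum_le_sum fun v hv => sum_le_sum fun v' hv' => ?_
          rw [mem_filter] at hv'
          refine mul_le_mul_of_nonneg_left ?_ (by positivity)
          exact_mod_cast card_cong (fun p hp => (hP p hp).1) hτ hv'.2.symm (hbox v hv v' hv'.1)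
      _ ≤ ∑ v ∈ c.support, ∑ v' ∈ c.support, |c v| * |c v'| * (τ : ℤ) := by
          refine sum_le_sum fun v _ => ?_
          exact sum_le_sum_of_subset_of_nonneg (filter_subset _ _) fun v _ _ => by positivity
      _ = (∑ v ∈ c.support, |c v|) * (∑ v ∈ c.support, |c v|) * τ := by
          rw [sum_mul_sum, sum_mul]
          exact sum_congr rfl fun v _ => by rw [sum_mul]
      _ ≤ (n : ℤ) * n * τ := by
          have h0 : 0 ≤ ∑ v ∈ c.support, |c v| := sum_nonneg fun v _ => abs_nonneg _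
          exact mul_le_mul_of_nonneg_right (mul_le_mul hc1 hc1 h0 (by positivity)) (by positivity)
      _ = (τ * n ^ 2 : ℕ) := by push_cast; ring
  have hbad : ∀ p ∈ P, ¬ (∀ v₀, S c p v₀ = 0) → ((Y ^ 2 : ℕ) : ℤ) ≤ 2 * E p := by
    intro p hp hcon
    push Not at hcon
    obtain ⟨v₀, hv₀⟩ := hcon
    set V : Finset (Fin 2 → ℤ) := {v ∈ c.support | Cong p v v₀} with hV
    set B : ℤ := ∑ v ∈ V, |c v| with hB
    have g1 : (p : ℤ) ≤ B := by
      have g2 := Int.le_of_dvd (abs_pos.2 hv₀) ((dvd_abs _ _).2 (hS p hp v₀))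
      refine g2.trans ?_
      rw [S]
      exact abs_sum_le_sum_abs _ _
    have g2 : (Y : ℤ) < B := lt_of_lt_of_le (by exact_mod_cast (hP p hp).2) g1
    have g3 : ∑ v ∈ V, |c v| * (B - |c v|) ≤ E p := by
      have g4 : ∀ v ∈ V, |c v| * (B - |c v|) =
          ∑ v' ∈ V with v' ≠ v, |c v| * |c v'| := by
        intro v hv
        have g5 : B = |c v| + ∑ v' ∈ V with v' ≠ v, |c v'| := by
          rw [hB, ← sum_filter_add_sum_filter_not V (fun v' => v' = v)]
          congr 1
          rw [sum_filter, sum_ite_eq' V v]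
          simp [hv]
        rw [g5, add_sub_cancel_left, mul_sum]
      rw [sum_congr rfl g4, hE]
      simp only
      have g6 : ∀ v ∈ V, ∑ v' ∈ V with v' ≠ v, |c v| * |c v'| ≤
          ∑ v' ∈ c.support with (v' ≠ v ∧ Cong p v v'), |c v| * |c v'| := by
        intro v hv
        refine sum_le_sum_of_subset_of_nonneg ?_ fun v' _ _ => by positivity
        intro v' hv'
        rw [mem_filter, hV, mem_filter] at hv'
        rw [hV, mem_filter] at hv
        rw [mem_filter]
        exact ⟨hv'.1.1, hv'.2, hv.2.trans hv'.1.2.symm⟩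
      refine (sum_le_sum g6).trans ?_
      refine sum_le_sum_of_subset_of_nonneg (filter_subset _ _) fun v _ _ => ?_
      exact sum_nonneg fun v' _ => by positivity
    have g7 : B * (B - T) ≤ ∑ v ∈ V, |c v| * (B - |c v|) := by
      rw [hB, sum_mul]
      refine sum_le_sum fun v hv => ?_
      rw [hV, mem_filter] at hv
      refine mul_le_mul_of_nonneg_left ?_ (abs_nonneg _)
      have := hT v hv.1
      linarith
    have g8 : 2 * (T : ℤ) ≤ Y := by exact_mod_cast h2'
    have g9 : ((Y ^ 2 : ℕ) : ℤ) = (Y : ℤ) * Y := by push_cast; ring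
    rw [g9]
    have g10 : (0 : ℤ) ≤ Y := by positivity
    nlinarith
  have hcard := card_filter_add_card_filter_not (s := P) (fun p => ∀ v₀, S c p v₀ = 0)
  have hb : #{p ∈ P | ¬ ∀ v₀, S c p v₀ = 0} * Y ^ 2 ≤ 2 * (τ * n ^ 2) := by
    have e1 : (#{p ∈ P | ¬ ∀ v₀, S c p v₀ = 0} : ℤ) * ((Y ^ 2 : ℕ) : ℤ) ≤
        2 * ∑ p ∈ P, E p := by
      calc (#{p ∈ P | ¬ ∀ v₀, S c p v₀ = 0} : ℤ) * ((Y ^ 2 : ℕ) : ℤ)
          = ∑ p ∈ P with ¬ ∀ v₀, S c p v₀ = 0, ((Y ^ 2 : ℕ) : ℤ) := by
            rw [sum_const, nsmul_eq_mul]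
        _ ≤ ∑ p ∈ P with ¬ ∀ v₀, S c p v₀ = 0, 2 * E p := by
            refine sum_le_sum fun p hp => ?_
            rw [mem_filter] at hp
            exact hbad p hp.1 hp.2
        _ ≤ ∑ p ∈ P, 2 * E p :=
            sum_le_sum_of_subset_of_nonneg (filter_subset _ _) fun p _ _ => by
              have := hE0 p
              positivity
        _ = 2 * ∑ p ∈ P, E p := by rw [mul_sum]
    exact_mod_cast e1.trans (mul_le_mul_of_nonneg_left hsum (by norm_num))
  have h5 : 2 * #{p ∈ P | ¬ ∀ v₀, S c p v₀ = 0} * Y ^ 2 ≤ P.card * Y ^ 2 := by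
    calc 2 * #{p ∈ P | ¬ ∀ v₀, S c p v₀ = 0} * Y ^ 2
        = 2 * (#{p ∈ P | ¬ ∀ v₀, S c p v₀ = 0} * Y ^ 2) := by ring
      _ ≤ 2 * (2 * (τ * n ^ 2)) := Nat.mul_le_mul_left _ hb
      _ = 4 * τ * n ^ 2 := by ring
      _ ≤ _ := h3
  have h6 : 2 * #{p ∈ P | ¬ ∀ v₀, S c p v₀ = 0} ≤ P.card :=
    Nat.le_of_mul_le_mul_right h5 (by positivity)
  omega

end Pool.Agent.MetaRF
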