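import Pool.Agent.MetaRF.Lines

/-!
# The convex hull and the conclusion

If the extreme line of a finite set of points of the plane in every direction `(i, j)` with
`0 ≤ i < j ≤ M` coprime contains two points of the set, the set has width at least `∑ j`.
-/

set_option autoImplicit false

namespace Pool.Agent.MetaRF

open Finset Polynomial

variable {P : Finset ℕ} {Y τ T M n : ℕ} {c : (Fin 2 → ℤ) →₀ ℤ} {b : Fin 2 → ℤ}

/-- The directions. -/
def dirs (M : ℕ) : Finset (Σ _ : ℕ, ℕ) :=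
  (Icc 1 M).sigma fun j => {i ∈ range j | j.Coprime i}

theorem mem_dirs {M : ℕ} {u : Σ _ : ℕ, ℕ} :
    u ∈ dirs M ↔ (1 ≤ u.1 ∧ u.1 ≤ M) ∧ u.2 < u.1 ∧ u.1.Coprime u.2 := by
  rw [dirs, mem_sigma, mem_Icc, mem_filter, mem_range]

theorem sum_dirs (M : ℕ) : ∑ u ∈ dirs M, u.1 = ∑ j ∈ Icc 1 M, j * j.totient := by
  rw [dirs, sum_sigma]
  refine sum_congr rfl fun j _ => ?_
  rw [sum_const, smul_eq_mul, mul_comm, Nat.totient_eq_card_coprime]

theorem cube_le (M : ℕ) : M ^ 3 ≤ 3 * ∑ j ∈ Icc 1 M, j * j := by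
  induction M with
  | zero => simp
  | succ M ih =>
    rw [sum_Icc_succ_top (by omega), mul_add]
    nlinarith

theorem le_mul_totient {m : ℕ} (hm : 0 < m) : m ≤ m.divisors.card * m.totient := by
  conv_lhs => rw [← Nat.sum_totient m]
  rw [← smul_eq_mul]
  refine sum_le_card_nsmul _ _ _ fun d hd => ?_
  have h7 := (Nat.mem_divisors.1 hd)
  exact Nat.le_of_dvd (Nat.totient_pos.2 hm) (Nat.totient_dvd_of_dvd h7.1)

theorem sum_dirs_ge (hτM : ∀ m, 0 < m → m ≤ M → m.divisors.card ≤ τ) :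
    M ^ 3 ≤ 3 * (τ * ∑ u ∈ dirs M, u.1) := by
  refine (cube_le M).trans (Nat.mul_le_mul_left _ ?_)
  rw [sum_dirs, mul_sum]
  refine sum_le_sum fun j hj => ?_
  rw [mem_Icc] at hj
  have h1 := le_mul_totient (m := j) (by omega)
  have h2 := Nat.mul_le_mul_right j.totient (hτM j (by omega) hj.2)
  calc j * j ≤ j * (τ * j.totient) := Nat.mul_le_mul_left _ (h1.trans h2)
    _ = τ * (j * j.totient) := by ring

/-- The widths of the extreme segments add up. -/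
theorem sum_dirs_le (hb : ∀ v ∈ c.support, ∀ k, b k ≤ v k ∧ v k ≤ b k + n) (hc : c ≠ 0)
    (hg : ∀ u ∈ dirs M, g c b u.2 u.1 = 0) : ∑ u ∈ dirs M, u.1 ≤ n := by
  classical
  have key : ∀ u ∈ dirs M, ∃ L : ℤ, b 0 ≤ L ∧ L + u.1 ≤ b 0 + n ∧
      (∃ v ∈ c.support, v 0 = L ∧
        ∀ x ∈ c.support, (u.2 : ℤ) * x 0 + u.1 * x 1 ≤ u.2 * v 0 + u.1 * v 1) ∧
      (∃ v ∈ c.support, L + u.1 ≤ v 0 ∧
        ∀ x ∈ c.support, (u.2 : ℤ) * x 0 + u.1 * x 1 ≤ u.2 * v 0 + u.1 * v 1) := by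
    intro u hu
    obtain ⟨v, hv, v', hv', hne, heq, hmax⟩ := two_points hb hc u.2 u.1 (hg u hu)
    rw [mem_dirs] at hu
    have hmax' : ∀ x ∈ c.support, (u.2 : ℤ) * x 0 + u.1 * x 1 ≤ u.2 * v' 0 + u.1 * v' 1 := by
      intro x hx
      rw [← heq]
      exact hmax x hx
    have h0 : v 0 ≠ v' 0 := by
      intro h
      rw [h] at heq
      have h1 : (u.1 : ℤ) * v 1 = u.1 * v' 1 := by linarith
      have h2 : (u.1 : ℤ) ≠ 0 := by
        have := hu.1.1
        omega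
      have h3 := mul_left_cancel₀ h2 h1
      apply hne
      funext k
      fin_cases k
      · exact h
      · exact h3
    have hdvd : (u.1 : ℤ) ∣ v 0 - v' 0 := by
      have h1 : (u.1 : ℤ) ∣ (u.2 : ℤ) * (v 0 - v' 0) := ⟨v' 1 - v 1, by linarith⟩
      exact (Nat.isCoprime_iff_coprime.2 hu.2.2).dvd_of_dvd_mul_left h1
    have hle := Int.le_of_dvd (abs_pos.2 (sub_ne_zero.2 h0)) ((dvd_abs _ _).2 hdvd)
    have hbv := hb v hv 0
    have hbv' := hb v' hv' 0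
    rcases lt_or_gt_of_ne h0 with hlt | hlt
    · rw [abs_of_neg (by linarith)] at hle
      exact ⟨v 0, hbv.1, by linarith, ⟨v, hv, rfl, hmax⟩, ⟨v', hv', by linarith, hmax'⟩⟩
    · rw [abs_of_pos (by linarith)] at hle
      exact ⟨v' 0, hbv'.1, by linarith, ⟨v', hv', rfl, hmax'⟩, ⟨v, hv, by linarith, hmax⟩⟩
  choose! L hL using key
  have hcross : ∀ u ∈ dirs M, ∀ u' ∈ dirs M, u.2 * u'.1 = u'.2 * u.1 → u = u' := by
    intro u hu u' hu' h
    rw [mem_dirs] at hu hu'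
    have h1 : u.1 ∣ u'.1 := by
      have : u.1 ∣ u.2 * u'.1 := ⟨u'.2, by rw [h]; ring⟩
      exact hu.2.2.dvd_of_dvd_mul_left this
    have h2 : u'.1 ∣ u.1 := by
      have : u'.1 ∣ u'.2 * u.1 := ⟨u.2, by rw [← h]; ring⟩
      exact hu'.2.2.dvd_of_dvd_mul_left this
    have h3 := Nat.dvd_antisymm h1 h2
    have h4 : u.2 = u'.2 := by
      rw [h3] at h
      exact Nat.eq_of_mul_eq_mul_right (by omega) h
    cases u
    cases u'
    simp only at h3 h4
    subst h3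
    subst h4
    rfl
  have hdis : ∀ u ∈ dirs M, ∀ u' ∈ dirs M, u.2 * u'.1 > u'.2 * u.1 →
      Disjoint (Ico (L u) (L u + u.1)) (Ico (L u') (L u' + u'.1)) := by
    intro u hu u' hu' h
    obtain ⟨-, -, ⟨a, ha, haL, hamax⟩, -⟩ := hL u hu
    obtain ⟨-, -, -, ⟨a', ha', haL', hamax'⟩⟩ := hL u' hu'
    have h1 := hamax a' ha'
    have h2 := hamax' a ha
    have hu1 := (mem_dirs.1 hu).1.1
    have hu1' := (mem_dirs.1 hu').1.1
    have e1 : ((u.2 : ℤ) * a' 0 + u.1 * a' 1) * u'.1 ≤ (u.2 * a 0 + u.1 * a 1) * u'.1 :=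
      mul_le_mul_of_nonneg_right h1 (by positivity)
    have e2 : ((u'.2 : ℤ) * a 0 + u'.1 * a 1) * u.1 ≤ (u'.2 * a' 0 + u'.1 * a' 1) * u.1 :=
      mul_le_mul_of_nonneg_right h2 (by positivity)
    have e3 : ((u.2 : ℤ) * u'.1 - u'.2 * u.1) * (a' 0 - a 0) ≤ 0 := by nlinarith
    have e4 : (0 : ℤ) < (u.2 : ℤ) * u'.1 - u'.2 * u.1 := by
      have : ((u'.2 * u.1 : ℕ) : ℤ) < ((u.2 * u'.1 : ℕ) : ℤ) := by exact_mod_cast h
      push_cast at this
      linarith
    have e5 : a' 0 ≤ a 0 := by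
      by_contra hcon
      push Not at hcon
      have := mul_pos e4 (sub_pos.2 hcon)
      linarith
    rw [disjoint_left]
    intro x hx hx'
    rw [mem_Ico] at hx hx'
    omega
  have hpw : (dirs M : Set (Σ _ : ℕ, ℕ)).PairwiseDisjoint
      (fun u => Ico (L u) (L u + u.1)) := by
    intro u hu u' hu' hne
    rw [mem_coe] at hu hu'
    rcases lt_trichotomy (u.2 * u'.1) (u'.2 * u.1) with h | h | h
    · exact (hdis u' hu' u hu h).symm
    · exact absurd (hcross u hu u' hu' h) hne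
    · exact hdis u hu u' hu' h
  have h1 : #((dirs M).biUnion fun u => Ico (L u) (L u + u.1)) = ∑ u ∈ dirs M, u.1 := by
    rw [card_biUnion hpw]
    refine sum_congr rfl fun u _ => ?_
    rw [Int.card_Ico]
    omega
  rw [← h1]
  calc #((dirs M).biUnion fun u => Ico (L u) (L u + u.1)) ≤ #(Ico (b 0) (b 0 + n)) := by
        refine card_le_card fun x hx => ?_
        rw [mem_biUnion] at hx
        obtain ⟨u, hu, hx⟩ := hx
        obtain ⟨h2, h3, -, -⟩ := hL u hu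
        rw [mem_Ico] at hx ⊢
        omega
    _ = n := by
        rw [Int.card_Ico]
        omega

/-- **The core.** An integer function on the plane of `ℓ¹`-norm at most `n`, supported in a box of
side `n`, whose class sums modulo `p - 1` are divisible by `p` for all `p ∈ P`, is zero. -/
theorem core (hP : ∀ p ∈ P, p.Prime ∧ Y < p)
    (hτ : ∀ m, 0 < m → m ≤ n → m.divisors.card ≤ τ)
    (hτP : ∀ p ∈ P, (p - 1).divisors.card ≤ τ)
    (hτM : ∀ m, 0 < m → m ≤ M → m.divisors.card ≤ τ)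
    (hc1 : ∑ v ∈ c.support, |c v| ≤ n)
    (hb : ∀ v ∈ c.support, ∀ k, b k ≤ v k ∧ v k ≤ b k + n)
    (hS : ∀ p ∈ P, ∀ v₀, (p : ℤ) ∣ S c p v₀)
    (h1 : n * τ + (2 * T + 1) * T < P.card * T) (h2 : n + T < Y ^ 2) (h2' : 2 * T ≤ Y)
    (h3 : 4 * τ * n ^ 2 ≤ P.card * Y ^ 2) (h4 : 4 * (τ * (n * M)) < P.card * Y)
    (h5 : 3 * (τ * n) < M ^ 3) : c = 0 := by
  classical
  by_contra hc
  have hbox : ∀ v ∈ c.support, ∀ v' ∈ c.support, ∀ j, |v j - v' j| ≤ n := by
    intro v hv v' hv' j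
    have e1 := hb v hv j
    have e2 := hb v' hv' j
    rw [abs_le]
    omega
  have hgood := good_card hP hτ hc1 hbox hS h1 h2 h2' h3
  set G : Finset ℕ := {p ∈ P | ∀ v₀, S c p v₀ = 0} with hG
  have hGP : ∀ p ∈ G, p ∈ P := fun p hp => (mem_filter.1 hp).1
  have hg : ∀ u ∈ dirs M, g c b u.2 u.1 = 0 := by
    intro u hu
    rw [mem_dirs] at hu
    refine g_eq_zero hb (fun p hp => hP p (hGP p hp)) (fun p hp => hτP p (hGP p hp))
      (fun p hp => (mem_filter.1 hp).2) _ _ ?_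
    have e1 : u.2 + u.1 ≤ 2 * M := by omega
    have e2 : τ * (n * (u.2 + u.1)) ≤ τ * (n * (2 * M)) :=
      Nat.mul_le_mul_left _ (Nat.mul_le_mul_left _ e1)
    have e3 : P.card * Y ≤ 2 * (G.card * Y) := by
      calc P.card * Y ≤ 2 * G.card * Y := Nat.mul_le_mul_right _ hgood
        _ = _ := by ring
    have e4 : 2 * (τ * (n * (2 * M))) = 4 * (τ * (n * M)) := by ring
    omega
  have e1 := sum_dirs_le hb hc hg
  have e2 := sum_dirs_ge hτM
  have e3 : 3 * (τ * ∑ u ∈ dirs M, u.1) ≤ 3 * (τ * n) :=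
    Nat.mul_le_mul_left _ (Nat.mul_le_mul_left _ e1)
  omega

end Pool.Agent.MetaRF
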