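import Pool.Agent.MetaRF.Core

/-!
# Line sums

If all class sums of `c` modulo `p - 1` are zero for many primes `p`, all sums of `c` over the
lines with a normal vector `(i, j)` with small entries are zero.
-/

set_option autoImplicit false

namespace Pool.Agent.MetaRF

open Finset Polynomial

variable {P : Finset ℕ} {Y τ T M n : ℕ} {c : (Fin 2 → ℤ) →₀ ℤ} {b : Fin 2 → ℤ}

/-- The exponent of a point. -/
def ex (b : Fin 2 → ℤ) (i j : ℕ) (v : Fin 2 → ℤ) : ℕ :=
  i * (v 0 - b 0).toNat + j * (v 1 - b 1).toNat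

/-- The polynomial of the restriction of `c` to a subgroup with one parameter. -/
noncomputable def g (c : (Fin 2 → ℤ) →₀ ℤ) (b : Fin 2 → ℤ) (i j : ℕ) : ℂ[X] :=
  ∑ v ∈ c.support, C ((c v : ℤ) : ℂ) * X ^ ex b i j v

theorem ex_le (hb : ∀ v ∈ c.support, ∀ k, b k ≤ v k ∧ v k ≤ b k + n) (i j : ℕ) (v : Fin 2 → ℤ)
    (hv : v ∈ c.support) : ex b i j v ≤ n * (i + j) := by
  have h0 : (v 0 - b 0).toNat ≤ n := by have := hb v hv 0; omega
  have h1 : (v 1 - b 1).toNat ≤ n := by have := hb v hv 1; omega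
  rw [ex, mul_add]
  exact add_le_add (by rw [mul_comm n]; exact Nat.mul_le_mul_left _ h0)
    (by rw [mul_comm n]; exact Nat.mul_le_mul_left _ h1)

theorem natDegree_g (hb : ∀ v ∈ c.support, ∀ k, b k ≤ v k ∧ v k ≤ b k + n) (i j : ℕ) :
    (g c b i j).natDegree ≤ n * (i + j) := by
  refine natDegree_sum_le_of_forall_le _ _ fun v hv => ?_
  exact (natDegree_C_mul_X_pow_le _ _).trans (ex_le hb i j v hv)

/-- If all class sums modulo `p - 1` are zero, the polynomials vanish at the roots of unity of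
order dividing `p - 1`. -/
theorem eval_g (hb : ∀ v ∈ c.support, ∀ k, b k ≤ v k ∧ v k ≤ b k + n) {p : ℕ} (hp : 1 < p)
    (hS : ∀ v₀, S c p v₀ = 0) (i j : ℕ) (ζ : ℂ) (hζ : ζ ^ (p - 1) = 1) :
    (g c b i j).eval ζ = 0 := by
  classical
  have hζ0 : ζ ≠ 0 := by
    rintro rfl
    rw [zero_pow (by omega)] at hζ
    exact zero_ne_one hζ
  set F : (Fin 2 → ℤ) → ℂ := fun v => ζ ^ ((i : ℤ) * (v 0 - b 0) + j * (v 1 - b 1)) with hF
  have hz : ζ ^ ((p : ℤ) - 1) = 1 := by
    have : ((p : ℤ) - 1) = ((p - 1 : ℕ) : ℤ) := by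
      push_cast [Nat.cast_sub hp.le]
      ring
    rw [this, zpow_natCast, hζ]
  have hFc : ∀ v v', Cong p v v' → F v = F v' := by
    intro v v' h
    obtain ⟨x, hx⟩ := h 0
    obtain ⟨y, hy⟩ := h 1
    have e1 : ((i : ℤ) * (v 0 - b 0) + j * (v 1 - b 1)) =
        ((p : ℤ) - 1) * (i * x + j * y) + ((i : ℤ) * (v' 0 - b 0) + j * (v' 1 - b 1)) := by
      have e2 : v 0 = v' 0 + ((p : ℤ) - 1) * x := by linarith
      have e3 : v 1 = v' 1 + ((p : ℤ) - 1) * y := by linarith
      rw [e2, e3]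
      ring
    rw [hF]
    simp only
    rw [e1, zpow_add₀ hζ0, zpow_mul, hz, one_zpow, one_mul]
  have h1 : (g c b i j).eval ζ = ∑ v ∈ c.support, ((c v : ℤ) : ℂ) * F v := by
    rw [g, eval_finsetSum]
    refine sum_congr rfl fun v hv => ?_
    rw [eval_mul, eval_C, eval_pow, eval_X, hF]
    congr 1
    have h2 := hb v hv 0
    have h3 := hb v hv 1
    have e1 : ((i : ℤ) * (v 0 - b 0) + j * (v 1 - b 1)) = (ex b i j v : ℤ) := by
      rw [ex]
      push_cast
      rw [Int.toNat_of_nonneg (by omega), Int.toNat_of_nonneg (by omega)]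
    simp only
    rw [e1, zpow_natCast]
  rw [h1]
  set cl : (Fin 2 → ℤ) → (Fin 2 → ℤ) := fun v k => v k % ((p : ℤ) - 1) with hcl
  have hclc : ∀ v v', cl v = cl v' ↔ Cong p v v' := by
    intro v v'
    rw [hcl, funext_iff]
    constructor
    · intro h k
      exact Int.ModEq.dvd (h k).symm
    · intro h k
      exact ((Int.modEq_iff_dvd.2 (h k)).symm)
  rw [← sum_fiberwise_of_maps_to (s := c.support) (t := c.support.image cl) (g := cl)
    (fun v hv => mem_image_of_mem _ hv)]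
  refine sum_eq_zero fun κ hκ => ?_
  obtain ⟨v₁, hv₁, rfl⟩ := mem_image.1 hκ
  have h2 : ∀ v ∈ c.support.filter (fun v => cl v = cl v₁),
      ((c v : ℤ) : ℂ) * F v = ((c v : ℤ) : ℂ) * F v₁ := by
    intro v hv
    rw [mem_filter, hclc] at hv
    rw [hFc v v₁ hv.2]
  rw [sum_congr rfl h2, ← sum_mul]
  have h3 : ∑ v ∈ c.support with cl v = cl v₁, ((c v : ℤ) : ℂ) = ((S c p v₁ : ℤ) : ℂ) := by
    rw [S, Int.cast_sum]
    refine sum_congr ?_ fun _ _ => rfl
    ext v
    rw [mem_filter, mem_filter, hclc]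
  rw [h3, hS, Int.cast_zero, zero_mul]

/-- If the class sums vanish for many primes, the polynomials are zero. -/
theorem g_eq_zero {G : Finset ℕ} (hb : ∀ v ∈ c.support, ∀ k, b k ≤ v k ∧ v k ≤ b k + n)
    (hG : ∀ p ∈ G, p.Prime ∧ Y < p) (hτ : ∀ p ∈ G, (p - 1).divisors.card ≤ τ)
    (hS : ∀ p ∈ G, ∀ v₀, S c p v₀ = 0) (i j : ℕ)
    (h : τ * (n * (i + j)) < G.card * Y) : g c b i j = 0 := by
  classical
  by_contra hg
  have h1 : (G.biUnion fun p => primitiveRoots (p - 1) ℂ) ⊆ (g c b i j).roots.toFinset := by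
    intro ζ hζ
    rw [mem_biUnion] at hζ
    obtain ⟨p, hp, hζ⟩ := hζ
    have hp1 := (hG p hp).1.one_lt
    rw [mem_primitiveRoots (by omega)] at hζ
    rw [Multiset.mem_toFinset, mem_roots hg]
    exact eval_g hb hp1 (hS p hp) i j ζ hζ.pow_eq_one
  have h2 : #(G.biUnion fun p => primitiveRoots (p - 1) ℂ) = ∑ p ∈ G, (p - 1).totient := by
    rw [card_biUnion]
    · exact sum_congr rfl fun p _ => Complex.card_primitiveRoots _
    · intro p hp q hq hne
      refine IsPrimitiveRoot.disjoint ?_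
      have h3 := (hG p hp).1.pos
      have h4 := (hG q hq).1.pos
      omega
  have h3 : ∑ p ∈ G, (p - 1).totient ≤ n * (i + j) := by
    rw [← h2]
    refine (card_le_card h1).trans ((Multiset.toFinset_card_le _).trans ?_)
    exact (card_roots' _).trans (natDegree_g hb i j)
  have h4 : ∀ p ∈ G, Y ≤ τ * (p - 1).totient := by
    intro p hp
    have h5 := (hG p hp).2
    have h6 : p - 1 ≤ (p - 1).divisors.card * (p - 1).totient := by
      conv_lhs => rw [← Nat.sum_totient (p - 1)]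
      rw [← smul_eq_mul]
      refine sum_le_card_nsmul _ _ _ fun d hd => ?_
      have h7 := (Nat.mem_divisors.1 hd)
      exact Nat.le_of_dvd (Nat.totient_pos.2 (Nat.pos_of_ne_zero h7.2))
        (Nat.totient_dvd_of_dvd h7.1)
    have h8 := Nat.mul_le_mul_right (p - 1).totient (hτ p hp)
    omega
  have h5 : G.card * Y ≤ τ * ∑ p ∈ G, (p - 1).totient := by
    rw [mul_sum, ← smul_eq_mul]
    exact card_nsmul_le_sum _ _ _ h4
  have h6 := Nat.mul_le_mul_left τ h3
  omega

/-- If the polynomial of a direction is zero, every line sum is zero; in particular the extreme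
line has two points. -/
theorem two_points (hb : ∀ v ∈ c.support, ∀ k, b k ≤ v k ∧ v k ≤ b k + n) (hc : c ≠ 0)
    (i j : ℕ) (hg : g c b i j = 0) :
    ∃ v ∈ c.support, ∃ v' ∈ c.support, v ≠ v' ∧
      (i : ℤ) * v 0 + j * v 1 = i * v' 0 + j * v' 1 ∧
      ∀ x ∈ c.support, (i : ℤ) * x 0 + j * x 1 ≤ i * v 0 + j * v 1 := by
  classical
  have hne : c.support.Nonempty := Finsupp.support_nonempty_iff.2 hc
  obtain ⟨v, hv, hmax⟩ := exists_max_image c.support (fun x => (i : ℤ) * x 0 + j * x 1) hne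
  by_contra hcon
  push Not at hcon
  have hval : ∀ x ∈ c.support, (ex b i j x : ℤ) = (i : ℤ) * (x 0 - b 0) + j * (x 1 - b 1) := by
    intro x hx
    have h2 := hb x hx 0
    have h3 := hb x hx 1
    rw [ex]
    push_cast
    rw [Int.toNat_of_nonneg (by omega), Int.toNat_of_nonneg (by omega)]
  have h1 : (g c b i j).coeff (ex b i j v) = ((c v : ℤ) : ℂ) := by
    rw [g, finsetSum_coeff, sum_eq_single v]
    · rw [coeff_C_mul, coeff_X_pow, if_pos rfl, mul_one]
    · intro x hx hxv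
      rw [coeff_C_mul, coeff_X_pow, if_neg, mul_zero]
      intro heq
      have e1 := hval x hx
      have e2 := hval v hv
      rw [← heq, e2] at e1
      obtain ⟨y, hy, hlt⟩ := hcon v hv x hx (Ne.symm hxv) (by linarith)
      exact absurd (hmax y hy) (not_le.2 hlt)
    · intro h
      exact absurd hv h
  rw [hg, coeff_zero] at h1
  have h2 : c v = 0 := by exact_mod_cast h1.symm
  exact (Finsupp.mem_support_iff.1 hv) h2

end Pool.Agent.MetaRF
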