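import Pool.Agent.MetaRF.Hull

/-!
# The parameters

The divisor bound, the number of primes and the choice of the parameters of `core`.
-/

set_option autoImplicit false

namespace Pool.Agent.MetaRF

open Finset

/-- The divisor bound. -/
theorem divisors_pow (s : ℕ) (hs : 0 < s) :
    ∃ C : ℕ, ∀ m : ℕ, 0 < m → m.divisors.card ^ s ≤ C * m := by
  classical
  refine ⟨(s ^ s) ^ (2 ^ s), fun m hm => ?_⟩
  have hloc : ∀ p a : ℕ, p.Prime → (a + 1) ^ s ≤ (if p < 2 ^ s then s ^ s else 1) * p ^ a := by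
    intro p a hp
    split_ifs with h
    · have h1 : a + 1 ≤ s * 2 ^ (a / s) := by
        have h2 : a / s + 1 ≤ 2 ^ (a / s) := Nat.lt_two_pow_self
        have h3 := Nat.div_add_mod a s
        have h4 := Nat.mod_lt a hs
        calc a + 1 ≤ s * (a / s + 1) := by rw [mul_add, mul_one]; omega
          _ ≤ _ := Nat.mul_le_mul_left _ h2
      calc (a + 1) ^ s ≤ (s * 2 ^ (a / s)) ^ s := Nat.pow_le_pow_left h1 _
        _ = s ^ s * 2 ^ (a / s * s) := by rw [mul_pow, ← pow_mul]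
        _ ≤ s ^ s * 2 ^ a :=
            Nat.mul_le_mul_left _ (Nat.pow_le_pow_right (by norm_num) (Nat.div_mul_le_self _ _))
        _ ≤ s ^ s * p ^ a := Nat.mul_le_mul_left _ (Nat.pow_le_pow_left hp.two_le _)
    · rw [one_mul]
      calc (a + 1) ^ s ≤ (2 ^ a) ^ s := Nat.pow_le_pow_left Nat.lt_two_pow_self _
        _ = (2 ^ s) ^ a := by rw [← pow_mul, ← pow_mul, mul_comm]
        _ ≤ p ^ a := Nat.pow_le_pow_left (not_lt.1 h) _
  rw [Nat.card_divisors hm.ne', ← prod_pow]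
  calc ∏ p ∈ m.primeFactors, (m.factorization p + 1) ^ s
      ≤ ∏ p ∈ m.primeFactors, (if p < 2 ^ s then s ^ s else 1) * p ^ m.factorization p :=
        prod_le_prod' fun p hp => hloc p _ (Nat.prime_of_mem_primeFactors hp)
    _ = (∏ p ∈ m.primeFactors, if p < 2 ^ s then s ^ s else 1) * m := by
        rw [prod_mul_distrib]
        congr 1
        exact Nat.prod_factorization_pow_eq_self hm.ne'
    _ ≤ (s ^ s) ^ (2 ^ s) * m := by
        refine Nat.mul_le_mul_right _ ?_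
        rw [← prod_filter, prod_const]
        refine Nat.pow_le_pow_right (Nat.pow_pos hs) ?_
        calc #{p ∈ m.primeFactors | p < 2 ^ s} ≤ #(range (2 ^ s)) := by
              refine card_le_card fun p hp => ?_
              rw [mem_filter] at hp
              exact mem_range.2 hp.2
          _ = 2 ^ s := card_range _

/-- The primes in `(Y, N]`. -/
def pr (Y N : ℕ) : Finset ℕ := {p ∈ Icc 1 N | p.Prime ∧ Y < p}

theorem mem_pr {Y N p : ℕ} : p ∈ pr Y N ↔ p ≤ N ∧ p.Prime ∧ Y < p := by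
  rw [pr, mem_filter, mem_Icc]
  constructor
  · rintro ⟨⟨_, h⟩, h'⟩
    exact ⟨h, h'⟩
  · rintro ⟨h, h'⟩
    exact ⟨⟨h'.1.pos, h⟩, h'⟩

theorem card_pr (Y N : ℕ) : Nat.primeCounting N ≤ #(pr Y N) + Y := by
  classical
  have h1 : Nat.primesLE N ⊆ pr Y N ∪ Icc 1 Y := by
    intro p hp
    rw [Nat.mem_primesLE] at hp
    rw [mem_union, mem_pr, mem_Icc]
    by_cases h : Y < p
    · exact Or.inl ⟨hp.1, hp.2, h⟩
    · exact Or.inr ⟨hp.2.pos, not_lt.1 h⟩
  rw [← Nat.primesLE_card_eq_primeCounting]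
  refine (card_le_card h1).trans ((card_union_le _ _).trans ?_)
  rw [Nat.card_Icc]
  omega

/-- There are many primes. -/
theorem exists_pr (k : ℕ) :
    ∃ K₀ : ℕ, ∀ K : ℕ, K₀ ≤ K → K ^ k ≤ #(pr (K ^ k) (K ^ (k + 1))) := by
  have hl2 : (0.6931471803 : ℝ) < Real.log 2 := Real.log_two_gt_d9
  have e1 : ∀ᶠ x : ℝ in Filter.atTop, Real.log x ≤ (1 / (8 * (k + 1))) * x := by
    have h := Real.isLittleO_log_id_atTop.bound
      (show (0 : ℝ) < 1 / (8 * (k + 1)) by positivity)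
    filter_upwards [h, Filter.eventually_ge_atTop 1] with x hx hx1
    rw [Real.norm_of_nonneg (Real.log_nonneg hx1), id, Real.norm_of_nonneg (by linarith)] at hx
    exact hx
  have e2 : ∀ᶠ x : ℝ in Filter.atTop, Real.log (x + 1) ≤ (1 / 4) * x := by
    have h := Real.isLittleO_log_id_atTop.bound (show (0 : ℝ) < 1 / 8 by positivity)
    have h' := (Filter.tendsto_atTop_add_const_right Filter.atTop (1 : ℝ)
      Filter.tendsto_id).eventually h
    filter_upwards [h', Filter.eventually_ge_atTop 1] with x hx hx1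
    simp only [id] at hx
    rw [Real.norm_of_nonneg (Real.log_nonneg (by linarith)),
      Real.norm_of_nonneg (by linarith)] at hx
    linarith
  obtain ⟨x₁, hx₁⟩ := Filter.eventually_atTop.1 e1
  obtain ⟨x₂, hx₂⟩ := Filter.eventually_atTop.1 e2
  refine ⟨max (max ⌈x₁⌉₊ ⌈x₂⌉₊) 2, fun K hK => ?_⟩
  have hK1 : x₁ ≤ K := (Nat.le_ceil _).trans
    (by exact_mod_cast ((le_max_left _ _).trans (le_max_left _ _)).trans hK)
  have hK2 : x₂ ≤ K := (Nat.le_ceil _).trans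
    (by exact_mod_cast ((le_max_right _ _).trans (le_max_left _ _)).trans hK)
  have hK3 : 2 ≤ K := (le_max_right _ _).trans hK
  have hK3' : (2 : ℝ) ≤ K := by exact_mod_cast hK3
  set N : ℕ := K ^ (k + 1) with hN
  have hKN : K ≤ N := by
    rw [hN]
    exact Nat.le_self_pow (by omega) K
  have hKN' : (K : ℝ) ≤ N := by exact_mod_cast hKN
  have f1 := hx₁ K hK1
  have f2 := hx₂ N (hK2.trans hKN')
  have f3 : Real.log N = (k + 1) * Real.log K := by
    rw [hN]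
    push_cast
    rw [Real.log_pow]
    push_cast
    ring
  have f4 : Real.log N ≤ K / 8 := by
    rw [f3]
    calc ((k : ℝ) + 1) * Real.log K ≤ (k + 1) * ((1 / (8 * (k + 1))) * K) :=
          mul_le_mul_of_nonneg_left f1 (by positivity)
      _ = K / 8 := by field_simp
  have f5 : 0 < Real.log N := Real.log_pos (by linarith)
  have f6 := Chebyshev.pi_ge N
  have f7 : (2 * (K : ℝ) ^ k) * Real.log N ≤ N * Real.log 2 - Real.log (N + 1) := by
    have g1 : (N : ℝ) = K ^ k * K := by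
      rw [hN]
      push_cast
      rw [pow_succ]
    have g2 : (0 : ℝ) < (K : ℝ) ^ k := by positivity
    calc (2 * (K : ℝ) ^ k) * Real.log N ≤ (2 * (K : ℝ) ^ k) * (K / 8) :=
          mul_le_mul_of_nonneg_left f4 (by positivity)
      _ = N * (1 / 4) := by rw [g1]; ring
      _ ≤ N * Real.log 2 - Real.log (N + 1) := by nlinarith
  have f8 : (2 * (K : ℝ) ^ k) ≤ Nat.primeCounting N := by
    refine le_trans ?_ f6
    rw [le_div_iff₀ f5]
    exact f7
  have f9 : 2 * K ^ k ≤ Nat.primeCounting N := by exact_mod_cast f8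
  have f10 := card_pr (K ^ k) N
  omega

/-- **The core with parameters.** -/
theorem core_params (r : ℕ) : ∃ K₀ : ℕ, ∀ K : ℕ, K₀ ≤ K → ∀ (n : ℕ) (c : (Fin 2 → ℤ) →₀ ℤ)
    (b : Fin 2 → ℤ), n ≤ K ^ (3 * r + 2) → ∑ v ∈ c.support, |c v| ≤ (n : ℤ) →
    (∀ v ∈ c.support, ∀ k, b k ≤ v k ∧ v k ≤ b k + n) → c ≠ 0 →
    ∃ p, p.Prime ∧ p ≤ K ^ (2 * r + 8) ∧ ∃ v₀, ¬ (p : ℤ) ∣ S c p v₀ := by
  obtain ⟨C, hC⟩ := divisors_pow (3 * r + 12) (by omega)
  obtain ⟨K₁, hK₁⟩ := exists_pr (2 * r + 7)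
  refine ⟨max (max C K₁) 5, fun K hK n c b hn hc1 hb hc => ?_⟩
  have hKC : C ≤ K := ((le_max_left _ _).trans (le_max_left _ _)).trans hK
  have hKK : K₁ ≤ K := ((le_max_right _ _).trans (le_max_left _ _)).trans hK
  have hK5 : 5 ≤ K := (le_max_right _ _).trans hK
  by_contra hcon
  push Not at hcon
  have hdiv : ∀ m : ℕ, 0 < m → m ≤ K ^ (3 * r + 12) → m.divisors.card ≤ K ^ 2 := by
    intro m hm hmK
    have h1 := hC m hm
    have h2 : m.divisors.card ^ (3 * r + 12) ≤ (K ^ 2) ^ (3 * r + 12) := by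
      calc m.divisors.card ^ (3 * r + 12) ≤ C * m := h1
        _ ≤ K ^ (3 * r + 12) * K ^ (3 * r + 12) :=
            Nat.mul_le_mul (hKC.trans (Nat.le_self_pow (by omega) K)) hmK
        _ = (K ^ 2) ^ (3 * r + 12) := by rw [← mul_pow, sq]
    exact (Nat.pow_le_pow_iff_left (by omega)).1 h2
  have hmono : ∀ a b : ℕ, a ≤ b → K ^ a ≤ K ^ b := fun a b h =>
    Nat.pow_le_pow_right (by omega) h
  have hcard := hK₁ K hKK
  set P := pr (K ^ (2 * r + 7)) (K ^ (2 * r + 7 + 1)) with hP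
  -- powers
  set x := K ^ r with hx
  have hx1 : 1 ≤ x := Nat.one_le_pow _ _ (by omega)
  have p1 : K ^ (3 * r + 2) = x ^ 3 * K ^ 2 := by rw [hx, ← pow_mul, pow_add]; ring
  have p2 : K ^ (2 * r + 7) = x ^ 2 * K ^ 7 := by rw [hx, ← pow_mul, pow_add]; ring
  have p3 : K ^ (r + 4) = x * K ^ 4 := by rw [hx, pow_add]
  have p4 : K ^ (r + 8) = x * K ^ 8 := by rw [hx, pow_add]
  have hY : 0 < K ^ (2 * r + 7) := Nat.pow_pos (by omega)
  refine hc (core (P := P) (Y := K ^ (2 * r + 7)) (τ := K ^ 2) (T := K ^ (r + 4))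
    (M := K ^ (r + 8)) (n := n) (c := c) (b := b) ?_ ?_ ?_ ?_ hc1 hb ?_ ?_ ?_ ?_ ?_ ?_ ?_)
  · intro p hp
    rw [hP, mem_pr] at hp
    exact ⟨hp.2.1, hp.2.2⟩
  · exact fun m hm hmn => hdiv m hm (hmn.trans (hn.trans (hmono _ _ (by omega))))
  · intro p hp
    rw [hP, mem_pr] at hp
    refine hdiv _ ?_ ?_
    · have := hp.2.2
      omega
    · exact (Nat.sub_le _ _).trans (hp.1.trans (hmono _ _ (by omega)))
  · exact fun m hm hmn => hdiv m hm (hmn.trans (hmono _ _ (by omega)))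
  · intro p hp v₀
    rw [hP, mem_pr] at hp
    exact hcon p hp.2.1 (hp.1.trans (hmono _ _ (by omega))) v₀
  · -- h1
    have h1 : n * K ^ 2 ≤ x ^ 3 * K ^ 4 := by
      calc n * K ^ 2 ≤ (x ^ 3 * K ^ 2) * K ^ 2 := Nat.mul_le_mul_right _ (by rw [← p1]; exact hn)
        _ = x ^ 3 * K ^ 4 := by ring
    have h2 : (2 * K ^ (r + 4) + 1) * K ^ (r + 4) ≤ 3 * (x ^ 2 * K ^ 8) := by
      rw [p3]
      have : 1 ≤ x * K ^ 4 := Nat.one_le_iff_ne_zero.2 (by positivity)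
      calc (2 * (x * K ^ 4) + 1) * (x * K ^ 4) ≤ (3 * (x * K ^ 4)) * (x * K ^ 4) :=
            Nat.mul_le_mul_right _ (by omega)
        _ = _ := by ring
    have h3 : x ^ 2 * K ^ 7 * (x * K ^ 4) ≤ P.card * K ^ (r + 4) := by
      rw [p3]
      exact Nat.mul_le_mul_right _ (by rw [← p2]; exact hcard)
    have h4 : x ^ 3 * K ^ 4 ≤ x ^ 3 * K ^ 8 := Nat.mul_le_mul_left _ (hmono _ _ (by omega))
    have h5 : x ^ 2 * K ^ 8 ≤ x ^ 3 * K ^ 8 :=
      Nat.mul_le_mul_right _ (Nat.pow_le_pow_right hx1 (by omega))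
    have h6 : x ^ 2 * K ^ 7 * (x * K ^ 4) = x ^ 3 * K ^ 8 * K ^ 3 := by ring
    have h7 : 5 ≤ K ^ 3 := hK5.trans (Nat.le_self_pow (by omega) K)
    have h8 : x ^ 3 * K ^ 8 * 5 ≤ x ^ 3 * K ^ 8 * K ^ 3 := Nat.mul_le_mul_left _ h7
    have h9 : 0 < x ^ 3 * K ^ 8 := by positivity
    omega
  · -- h2
    have h1 : (K ^ (2 * r + 7)) ^ 2 = x ^ 4 * K ^ 14 := by rw [p2]; ring
    have h2 : x ^ 3 * K ^ 2 ≤ x ^ 4 * K ^ 13 :=
      Nat.mul_le_mul (Nat.pow_le_pow_right hx1 (by omega)) (hmono _ _ (by omega))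
    have h3 : x * K ^ 4 ≤ x ^ 4 * K ^ 13 :=
      Nat.mul_le_mul (Nat.le_self_pow (by omega) x) (hmono _ _ (by omega))
    have h4 : x ^ 4 * K ^ 14 = x ^ 4 * K ^ 13 * K := by ring
    have h5 : x ^ 4 * K ^ 13 * 5 ≤ x ^ 4 * K ^ 13 * K := Nat.mul_le_mul_left _ hK5
    have h6 : 0 < x ^ 4 * K ^ 13 := by positivity
    rw [p1] at hn
    rw [h1, p3]
    omega
  · -- h2'
    rw [p2, p3]
    have h1 : x * K ^ 4 ≤ x ^ 2 * K ^ 6 :=
      Nat.mul_le_mul (Nat.le_self_pow (by omega) x) (hmono _ _ (by omega))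
    have h2 : x ^ 2 * K ^ 7 = x ^ 2 * K ^ 6 * K := by ring
    have h3 : x ^ 2 * K ^ 6 * 5 ≤ x ^ 2 * K ^ 6 * K := Nat.mul_le_mul_left _ hK5
    omega
  · -- h3
    calc 4 * K ^ 2 * n ^ 2 ≤ 4 * K ^ 2 * (x ^ 3 * K ^ 2) ^ 2 :=
          Nat.mul_le_mul_left _ (Nat.pow_le_pow_left (by rw [← p1]; exact hn) _)
      _ = 4 * (x ^ 6 * K ^ 6) := by ring
      _ ≤ K * (x ^ 6 * K ^ 20) :=
          Nat.mul_le_mul (by omega) (Nat.mul_le_mul_left _ (hmono _ _ (by omega)))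
      _ = (x ^ 2 * K ^ 7) * (x ^ 2 * K ^ 7) ^ 2 := by ring
      _ ≤ P.card * (K ^ (2 * r + 7)) ^ 2 := by
          rw [← p2]
          exact Nat.mul_le_mul_right _ hcard
  · -- h4
    calc 4 * (K ^ 2 * (n * K ^ (r + 8))) ≤ 4 * (K ^ 2 * ((x ^ 3 * K ^ 2) * (x * K ^ 8))) := by
          rw [p4]
          exact Nat.mul_le_mul_left _ (Nat.mul_le_mul_left _
            (Nat.mul_le_mul_right _ (by rw [← p1]; exact hn)))
      _ = 4 * (x ^ 4 * K ^ 12) := by ring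
      _ < K * (x ^ 4 * K ^ 12) := Nat.mul_lt_mul_of_pos_right (by omega) (by positivity)
      _ ≤ K * (x ^ 4 * K ^ 13) := Nat.mul_le_mul_left _
          (Nat.mul_le_mul_left _ (hmono _ _ (by omega)))
      _ = (x ^ 2 * K ^ 7) * (x ^ 2 * K ^ 7) := by ring
      _ ≤ P.card * K ^ (2 * r + 7) := by
          rw [← p2]
          exact Nat.mul_le_mul_right _ hcard
  · -- h5
    rw [p4]
    calc 3 * (K ^ 2 * n) ≤ 3 * (K ^ 2 * (x ^ 3 * K ^ 2)) :=
          Nat.mul_le_mul_left _ (Nat.mul_le_mul_left _ (by rw [← p1]; exact hn))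
      _ = 3 * (x ^ 3 * K ^ 4) := by ring
      _ < K * (x ^ 3 * K ^ 4) := Nat.mul_lt_mul_of_pos_right (by omega) (by positivity)
      _ ≤ K * (x ^ 3 * K ^ 23) := Nat.mul_le_mul_left _
          (Nat.mul_le_mul_left _ (hmono _ _ (by omega)))
      _ = (x * K ^ 8) ^ 3 := by ring

end Pool.Agent.MetaRF
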